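import Pool.Agent.X183.CCyc.Bridge

/-!
# A leafwise complex cycle which is not locally a superposition of pseudoholomorphic curves

Question (Ghys 2017, MP_03adb9_gt Q1): let `F` be a foliation with leafwise almost complex
structure `J` and `c` a `C`-cycle for the structure cone `C` of `J`. Is `c`, near every point, a
non-negative superposition of pseudoholomorphic curves?

Answer: **no**. On `M = ℂ² × ℝ^k` (for every `k ≥ 0`) with the foliation by the leaves
`ℂ² × {w}` and the standard (integrable) leafwise complex structure, the current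
`c = dd^c max(0, Re ζ, Re η)` on the leaf `w = 0`, i.e. the sum of the three families of half
planes `i y + (s + i t) e`, `s > 0`, `y ∈ ℝ²`, for `e = (-1,0), (0,-1), (1,1)`, is a `C`-cycle, but
on no open neighbourhood of the origin is it a superposition of proper holomorphic curves.
-/

open Set Filter Topology TopologicalSpace MeasureTheory
open scoped Manifold ContDiff Distributions

namespace Pool.Agent.Results.MP_03adb9_gt.NotSuperposition

open Pool.Agent.X183.CCyc

variable {k : ℕ}

theorem mono_apply (U : Opens (M k)) (α : Form k 2 U) (x : M k) :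
    (TestFunction.monoCLM ℝ α : Form k 2 ⊤) x = α x := by
  rw [TestFunction.monoCLM_apply]
  rw [if_pos ⟨le_rfl, le_top⟩]

theorem supp_closed : IsClosed (Supp k) := by
  unfold Supp
  have c1 : Continuous fun x : M k => x.1.1.re :=
    Complex.continuous_re.comp (continuous_fst.comp continuous_fst)
  have c2 : Continuous fun x : M k => x.1.2.re :=
    Complex.continuous_re.comp (continuous_snd.comp continuous_fst)
  have c0 : Continuous fun x : M k => x.2 := continuous_snd
  exact (isClosed_eq c0 continuous_const).inter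
    (((isClosed_eq c1 continuous_const).inter (isClosed_le c2 continuous_const)).union
      (((isClosed_eq c2 continuous_const).inter (isClosed_le c1 continuous_const)).union
        ((isClosed_eq c1 c2).inter (isClosed_le continuous_const c1))))

/-- test forms `φ ω` supported near a given point of an open set -/
theorem exists_form (U W : Opens (M k)) (hW : W ≤ U) (z : M k) (hz : z ∈ W) :
    ∃ (φ : M k → ℝ) (α : Form k 2 U), Continuous φ ∧ (∀ x, 0 ≤ φ x) ∧ 0 < φ z ∧
      (∀ x, α x = φ x • om k) ∧ ∀ x, x ∉ W → φ x = 0 := by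
  obtain ⟨δ, hδ, hb⟩ := Metric.isOpen_iff.mp W.isOpen z hz
  let b : ContDiffBump z := ⟨δ / 4, δ / 2, by positivity, by linarith⟩
  have hsub : tsupport b ⊆ (W : Set (M k)) := by
    rw [b.tsupport_eq]
    refine (Metric.closedBall_subset_ball ?_).trans hb
    change δ / 2 < δ
    linarith
  refine ⟨b, mkForm b b.contDiff b.hasCompactSupport (hsub.trans hW), b.continuous,
    fun x => b.nonneg, b.pos_of_mem_ball (Metric.mem_ball_self b.rOut_pos), fun x => rfl,
    fun x hx => ?_⟩
  by_contra h5
  exact hx (hsub (subset_tsupport _ h5))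

theorem PU_nonneg (U : Opens (M k)) (c' : (stdFol k).P U) (φ : M k → ℝ) (α : Form k 2 U)
    (hφ : ∀ x, 0 ≤ φ x) (hα : ∀ x, α x = φ x • om k) : 0 ≤ GCurrent.ev c'.1 α := by
  obtain ⟨c', S, _, _, hS1, hS2, hS3, u, hu, hc'⟩ := c'
  have h1 := toPullback (hc' α)
  have h2 : GForm.at (E := M k) α = fun x => φ x • om k := funext hα
  rw [h2] at h1
  exact integral_nonneg' (toPCurve hu) hφ h1

theorem PU_zero (U : Opens (M k)) {r : ℝ} (hball : Metric.ball (0 : M k) r ⊆ U)
    (c' : (stdFol k).P U)
    (T : Set (M k)) (φ : M k → M k → ℝ) (α : M k → Form k 2 U)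
    (hc : ∀ z ∈ T, Continuous (φ z)) (hφ : ∀ z ∈ T, ∀ x, 0 ≤ φ z x)
    (hα : ∀ z ∈ T, ∀ x, α z x = φ z x • om k)
    (hcov : (U : Set (M k)) \ Supp k ⊆ ⋃ z ∈ T, {x | 0 < φ z x})
    (hz : ∀ z ∈ T, GCurrent.ev c'.1 (α z) = 0) (β : Form k 2 U)
    (hβ : ∀ x, x ∉ Metric.ball (0 : M k) r → β x = 0) : GCurrent.ev c'.1 β = 0 := by
  obtain ⟨c', S, _, _, hS1, hS2, hS3, u, hu', hint'⟩ := c'
  simp only at hz ⊢
  have hu := toPCurve hu'
  have hSupp : ∀ s, u s ∈ Supp k := by
    intro s
    by_contra hs
    have h1 := hcov ⟨hu.mapsTo s, hs⟩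
    rw [mem_iUnion₂] at h1
    obtain ⟨z, hzT, hpos⟩ := h1
    have h2 := toPullback (hint' (α z))
    rw [hz z hzT] at h2
    have h5 : GForm.at (E := M k) (α z) = fun x => φ z x • om k := funext (hα z hzT)
    rw [h5] at h2
    have h3 := vanish_of_integral_zero hu (hφ z hzT) (hc z hzT) h2 s
    have h4 : 0 < φ z (u s) := hpos
    exact h4.ne' h3
  have havoid := curve_avoid hu hball hSupp
  exact integral_zero_of_vanish (toPullback (hint' β)) fun s => hβ _ (havoid s)

theorem not_superposition (U : Opens (M k)) (h0 : (0 : M k) ∈ U) :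
    ¬ (stdFol k).IsSuperpositionOn (cyc k) U := by
  rintro ⟨_, ν, hint, hrep'⟩
  have hrep : ∀ α : Form k 2 U, cyc k (TestFunction.monoCLM ℝ α : Form k 2 ⊤) =
      ∫ c' : (stdFol k).P U, GCurrent.ev c'.1 α ∂ν := fun α =>
    hrep' α (TestFunction.monoCLM ℝ α) (funext fun x => (mono_apply U α x).symm)
  obtain ⟨r, hr, hball⟩ := Metric.isOpen_iff.mp U.isOpen 0 h0
  let W : Opens (M k) := ⟨(U : Set (M k)) \ Supp k, U.isOpen.sdiff supp_closed⟩
  have hWU : W ≤ U := fun x hx => hx.1
  have hbump := exists_form U W hWU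
  choose! φ α hφc hφnn hφpos hα hφ0 using hbump
  obtain ⟨T, hTs, hTc, hTcov⟩ := countable_cover_nhdsWithin (s := (U : Set (M k)) \ Supp k)
    (f := fun z => {x | 0 < φ z x}) (fun z hz => by
      apply mem_nhdsWithin_of_mem_nhds
      exact (isOpen_lt continuous_const (hφc z hz)).mem_nhds (hφpos z hz))
  have hae : ∀ᵐ c' : (stdFol k).P U ∂ν, ∀ z ∈ T, GCurrent.ev c'.1 (α z) = 0 := by
    rw [ae_ball_iff hTc]
    intro z hz
    have h2 := hrep (α z)
    have h3 : cyc k (TestFunction.monoCLM ℝ (α z) : Form k 2 ⊤) = 0 := by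
      apply cyc_zero_of_supp
      intro x hx
      rw [mono_apply, hα z (hTs hz), hφ0 z (hTs hz) x (fun h => h.2 hx), zero_smul]
    rw [h3, eq_comm, integral_eq_zero_iff_of_nonneg
      (fun c' => PU_nonneg U c' (φ z) (α z) (hφnn z (hTs hz)) (hα z (hTs hz))) (hint _)] at h2
    exact h2
  -- a bump at the origin
  let B : Opens (M k) := ⟨Metric.ball (0 : M k) r, Metric.isOpen_ball⟩
  obtain ⟨ψ, β, hψc, hψnn, hψpos, hβ, hψ0⟩ := exists_form U B hball 0 (Metric.mem_ball_self hr)
  have hzero : ∀ᵐ c' : (stdFol k).P U ∂ν, GCurrent.ev c'.1 β = 0 := by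
    filter_upwards [hae] with c' hc'
    exact PU_zero U hball c' T φ α (fun z hz => hφc z (hTs hz)) (fun z hz => hφnn z (hTs hz))
      (fun z hz => hα z (hTs hz)) hTcov hc' β (fun x hx => by rw [hβ, hψ0 x hx, zero_smul])
  have h1 := hrep β
  rw [integral_eq_zero_of_ae hzero] at h1
  -- positivity
  have h2 : 0 < cyc k (TestFunction.monoCLM ℝ β : Form k 2 ⊤) := by
    have e1 : ContDiff ℝ ∞ ψ := by
      have h3 : ContDiff ℝ ∞ fun x => β x ![((1, 0), 0), ((Complex.I, 0), 0)] :=
        (ContinuousAlternatingMap.apply ℝ (M k) ℝ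
          ![((1, 0), 0), ((Complex.I, 0), 0)]).contDiff.comp β.contDiff
      have h4 : (fun x => β x ![((1, 0), 0), ((Complex.I, 0), 0)]) = ψ := by
        funext x
        rw [hβ, ContinuousAlternatingMap.smul_apply, om_apply]
        simp
      rwa [h4] at h3
    have e2 : HasCompactSupport ψ := by
      have h3 : HasCompactSupport fun x => β x ![((1, 0), 0), ((Complex.I, 0), 0)] :=
        β.hasCompactSupport.comp_left
          (g := fun L : (M k) [⋀^Fin 2]→L[ℝ] ℝ => L ![((1, 0), 0), ((Complex.I, 0), 0)]) rfl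
      have h4 : (fun x => β x ![((1, 0), 0), ((Complex.I, 0), 0)]) = ψ := by
        funext x
        rw [hβ, ContinuousAlternatingMap.smul_apply, om_apply]
        simp
      rwa [h4] at h3
    have e3 : tsupport ψ ⊆ (⊤ : Opens (M k)) := fun x _ => trivial
    have h3 := cyc_pos (k := k) ψ e1 e2 e3 hψnn hψpos
    have h4 : (TestFunction.monoCLM ℝ β : Form k 2 ⊤) = mkForm ψ e1 e2 e3 := by
      apply TestFunction.ext
      intro x
      rw [mono_apply, hβ, mkForm_apply]
    rw [h4]
    exact h3
  linarith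

/-- **Main theorem** (negative answer to Q1). For every `k`, on `M = ℂ² × ℝ^k` with the foliation
by the leaves `ℂ² × {w}` and the standard leafwise complex structure there is a `C`-cycle `c` such
that on no open neighbourhood `U` of the origin is `c` a non-negative superposition of
pseudoholomorphic curves of `U`. -/
theorem result : ∀ k : ℕ, (stdFol k).Counterexample 0 :=
  fun _ => ⟨cyc _, cyc_gcycle, cyc_gccurrent, fun U h0 => not_superposition U h0⟩

end Pool.Agent.Results.MP_03adb9_gt.NotSuperposition
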